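import Pool.Agent.Helper40.Ct.Goals

set_option autoImplicit false

open Finset

namespace Pool.Agent.Helper61.Ct

open Pool.Agent.Helper40.Ct

theorem ball : CUBE → BALL := by
  intro hcube d r hd hr hp w hw R hR hin
  set Q : (Fin d → ℝ) → (Fin d → ℝ) := fun p k => 4 * R * (p k - 1 / 2) with hQ
  set T : (Fin d → ℝ) → ℝ := fun q => max 0 (min 1 (Real.sqrt (∑ k, q k ^ 2) / R - 1)) with hT
  have hQc : Continuous Q := by
    rw [hQ]; fun_prop
  have hTc : Continuous T := by
    rw [hT]; fun_prop
  have hT0 : ∀ q, 0 ≤ T q := fun q => le_max_left _ _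
  have hT1 : ∀ q, T q ≤ 1 := fun q => max_le (by norm_num) (min_le_left _ _)
  have hTone : ∀ q : Fin d → ℝ, (2 * R) ^ 2 ≤ ∑ k, q k ^ 2 → T q = 1 := by
    intro q hq
    have h1 : 2 * R ≤ Real.sqrt (∑ k, q k ^ 2) := Real.le_sqrt_of_sq_le hq
    have h2 : 2 ≤ Real.sqrt (∑ k, q k ^ 2) / R := by
      rw [le_div_iff₀ hR]; exact h1
    simp only [hT]
    rw [min_eq_left (by linarith)]
    norm_num
  obtain ⟨p, π, hp01, hits⟩ := hcube d r hd hr hp
    (fun e p => (1 - T (Q p)) • w e (Q p) + T (Q p) • (- Q p))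
    (by
      intro e
      have h1 : Continuous fun p => w e (Q p) := (hw e).comp hQc
      have h2 : Continuous fun p => T (Q p) := hTc.comp hQc
      fun_prop)
    (by
      intro e p k hp01
      have key : ∀ k, (2 * R) ^ 2 ≤ (Q p k) ^ 2 → T (Q p) = 1 := by
        intro k hk
        apply hTone
        refine hk.trans ?_
        exact Finset.single_le_sum (f := fun k => (Q p k) ^ 2) (fun i _ => sq_nonneg _)
          (Finset.mem_univ k)
      constructor
      · intro h0
        have hqk : Q p k = - (2 * R) := by simp only [hQ, h0]; ring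
        have ht := key k (by rw [hqk]; nlinarith)
        simp only [ht, Pi.add_apply, Pi.smul_apply, Pi.neg_apply, hqk, smul_eq_mul]
        linarith
      · intro h1
        have hqk : Q p k = 2 * R := by simp only [hQ, h1]; ring
        have ht := key k (by rw [hqk])
        simp only [ht, Pi.add_apply, Pi.smul_apply, Pi.neg_apply, hqk, smul_eq_mul]
        linarith)
  refine ⟨Q p, π, ?_⟩
  have hlt : ∑ k, (Q p k) ^ 2 < R ^ 2 := by
    by_contra hcon
    push Not at hcon
    obtain ⟨c, hc0, hc1, hc2⟩ := hits 0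
    have hneg : ∀ e, ∑ k, ((1 - T (Q p)) • w e (Q p) + T (Q p) • (- Q p)) k * Q p k < 0 := by
      intro e
      have h1 := hin e (Q p) hcon
      have h2 : ∑ k, ((1 - T (Q p)) • w e (Q p) + T (Q p) • (- Q p)) k * Q p k
          = (1 - T (Q p)) * (∑ k, w e (Q p) k * Q p k) + T (Q p) * (- ∑ k, (Q p k) ^ 2) := by
        rw [Finset.mul_sum, ← Finset.sum_neg_distrib, Finset.mul_sum, ← Finset.sum_add_distrib]
        refine Finset.sum_congr rfl fun k _ => ?_
        simp only [Pi.add_apply, Pi.smul_apply, Pi.neg_apply, smul_eq_mul]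
        ring
      rw [h2]
      have h3 : - ∑ k, (Q p k) ^ 2 < 0 := by
        have : 0 < R ^ 2 := by positivity
        linarith
      have h4 := hT0 (Q p)
      have h5 := hT1 (Q p)
      rcases eq_or_lt_of_le h4 with h6 | h6
      · rw [← h6]; linarith
      · have h7 : T (Q p) * (- ∑ k, (Q p k) ^ 2) < 0 := mul_neg_of_pos_of_neg h6 h3
        have h8 : (1 - T (Q p)) * (∑ k, w e (Q p) k * Q p k) ≤ 0 :=
          mul_nonpos_of_nonneg_of_nonpos (by linarith) h1.le
        linarith
    have hsum : ∑ e ∈ univ.filter (fun e => part π e = 0),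
        c e * (∑ k, ((1 - T (Q p)) • w e (Q p) + T (Q p) • (- Q p)) k * Q p k) = 0 := by
      have h1 : ∑ k, (∑ e ∈ univ.filter (fun e => part π e = 0),
          c e • ((1 - T (Q p)) • w e (Q p) + T (Q p) • (- Q p))) k * Q p k = 0 := by
        rw [hc2]; simp
      rw [← h1]
      simp only [Finset.sum_apply, Finset.sum_mul, Finset.mul_sum]
      rw [Finset.sum_comm]
      refine Finset.sum_congr rfl fun k _ => Finset.sum_congr rfl fun e _ => ?_
      simp only [Pi.smul_apply, smul_eq_mul]
      ring
    have hex : ∃ e ∈ univ.filter (fun e => part π e = 0), 0 < c e := by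
      by_contra hno
      push Not at hno
      have : ∑ e ∈ univ.filter (fun e => part π e = 0), c e ≤ 0 := Finset.sum_nonpos hno
      linarith
    have : ∑ e ∈ univ.filter (fun e => part π e = 0),
        c e * (∑ k, ((1 - T (Q p)) • w e (Q p) + T (Q p) • (- Q p)) k * Q p k) < 0 := by
      apply Finset.sum_neg' (fun e _ => mul_nonpos_of_nonneg_of_nonpos (hc0 e) (hneg e).le)
      obtain ⟨e, he, hce⟩ := hex
      exact ⟨e, he, mul_neg_of_pos_of_neg hce (hneg e)⟩
    linarith
  have hT00 : T (Q p) = 0 := by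
    have h1 : Real.sqrt (∑ k, (Q p k) ^ 2) ≤ R := by
      rw [Real.sqrt_le_left hR.le]; exact hlt.le
    have h2 : Real.sqrt (∑ k, (Q p k) ^ 2) / R ≤ 1 := by
      rw [div_le_one hR]; exact h1
    simp only [hT]
    apply max_eq_left
    exact (min_le_right _ _).trans (by linarith)
  intro j
  have := hits j
  simpa only [hT00, sub_zero, one_smul, zero_smul, add_zero] using this

end Pool.Agent.Helper61.Ct

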